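import Pool.Agent.R18.LineCross

set_option autoImplicit false

/-!
# MP_62448f_co: lines meeting many edges of a geometric graph

A geometric graph on `n` points in general position with more than `nk` edges has a line avoiding the
vertices that meets at least `k²` edges whenever `k⁴ ≤ (k+1) n²` (in particular for all `n ≥ k^{3/2}`),
at least `k² + k + 1` edges if `2k ∣ n`, and at least `(8/9) k²` edges for all `n` and `k`.
-/

namespace Pool.Agent.Results.MP_62448f_co.LineThroughEdges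

/-- The line `a x + b y = c` in the plane (used with `(a, b) ≠ (0, 0)`). -/
def line (a b c : ℝ) : Set (ℝ × ℝ) := {x | a * x.1 + b * x.2 = c}

/-- The set of edges `uv` of `G` whose closed segment `[p u, p v]` meets the set `ℓ`. -/
def met {n : ℕ} (G : SimpleGraph (Fin n)) (p : Fin n → ℝ × ℝ) (ℓ : Set (ℝ × ℝ)) :
    Set (Sym2 (Fin n)) :=
  {e | e ∈ G.edgeSet ∧ ∃ u v, e = s(u, v) ∧ (segment ℝ (p u) (p v) ∩ ℓ).Nonempty}

/-- Some line avoiding all vertices meets at least `m` edges. -/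
def SomeLineMeets {n : ℕ} (G : SimpleGraph (Fin n)) (p : Fin n → ℝ × ℝ) (m : ℕ) : Prop :=
  ∃ a b c : ℝ, ¬ (a = 0 ∧ b = 0) ∧ (∀ v, p v ∉ line a b c) ∧ m ≤ (met G p (line a b c)).ncard

open Pool.Agent.R18.LX

lemma cut_le_met {n : ℕ} (G : SimpleGraph (Fin n)) (p : Fin n → ℝ × ℝ) (a b c : ℝ) :
    cutS G (fun v => a * (p v).1 + b * (p v).2 - c) ≤ (met G p (line a b c)).ncard := by
  apply cutS_le_ncard
  intro e he u hu v hv h1 h2
  refine ⟨he, u, v, ?_, ?_⟩
  · have huv : u ≠ v := by rintro rfl; linarith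
    exact ((Sym2.mem_and_mem_iff huv).1 ⟨hu, hv⟩)
  · set su := a * (p u).1 + b * (p u).2 - c with hsu
    set sv := a * (p v).1 + b * (p v).2 - c with hsv
    have hd : 0 < sv - su := by linarith
    refine ⟨(sv / (sv - su)) • p u + (-su / (sv - su)) • p v, ?_, ?_⟩
    · refine ⟨sv / (sv - su), -su / (sv - su), ?_, ?_, ?_, rfl⟩
      · positivity
      · apply div_nonneg (by linarith) hd.le
      · field_simp; ring
    · simp only [line, Set.mem_ofPred_eq, Prod.fst_add, Prod.smul_fst, smul_eq_mul, Prod.snd_add,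
        Prod.smul_snd]
      have e1 : a * (p u).1 + b * (p u).2 = su + c := by rw [hsu]; ring
      have e2 : a * (p v).1 + b * (p v).2 = sv + c := by rw [hsv]; ring
      calc a * (sv / (sv - su) * (p u).1 + -su / (sv - su) * (p v).1) +
          b * (sv / (sv - su) * (p u).2 + -su / (sv - su) * (p v).2)
          = sv / (sv - su) * (a * (p u).1 + b * (p u).2) +
            -su / (sv - su) * (a * (p v).1 + b * (p v).2) := by ring
        _ = c := by
            rw [e1, e2]; field_simp; ring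

lemma det_ne {n : ℕ} (p : Fin n → ℝ × ℝ) (hp : Function.Injective p)
    (hgp : ∀ i j l : Fin n, i ≠ j → j ≠ l → i ≠ l → ¬ Collinear ℝ {p i, p j, p l})
    (i j l : Fin n) (h1 : i ≠ j) (h2 : j ≠ l) (h3 : i ≠ l) :
    ((p j).1 - (p i).1) * ((p l).2 - (p i).2) ≠ ((p l).1 - (p i).1) * ((p j).2 - (p i).2) := by
  intro h
  apply hgp i j l h1 h2 h3
  rw [collinear_iff_of_mem (p₀ := p i) (by simp)]
  refine ⟨p j - p i, ?_⟩
  have hne : p j ≠ p i := fun h' => h1 (hp h').symm
  have hne2 : (p j).1 - (p i).1 ≠ 0 ∨ (p j).2 - (p i).2 ≠ 0 := by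
    by_contra hcon
    push Not at hcon
    apply hne
    ext
    · linarith [hcon.1]
    · linarith [hcon.2]
  intro x hx
  simp only [Set.mem_insert_iff, Set.mem_singleton_iff] at hx
  rcases hx with rfl | rfl | rfl
  · exact ⟨0, by simp⟩
  · exact ⟨1, by simp⟩
  · rcases hne2 with h0 | h0
    · refine ⟨((p l).1 - (p i).1) / ((p j).1 - (p i).1), ?_⟩
      ext
      · simp; field_simp; ring
      · simp; field_simp; linarith
    · refine ⟨((p l).2 - (p i).2) / ((p j).2 - (p i).2), ?_⟩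
      ext
      · simp; field_simp; linarith
      · simp; field_simp; ring

/-- Coordinates with distinct first coordinates. -/
lemma generic {n : ℕ} (p : Fin n → ℝ × ℝ) (hp : Function.Injective p) :
    ∃ ε : ℝ, Function.Injective (fun v => (p v).1 + ε * (p v).2) := by
  classical
  obtain ⟨ε, hε⟩ := Infinite.exists_notMem_finset ((Finset.univ : Finset (Fin n × Fin n)).image
    (fun q => -((p q.1).1 - (p q.2).1) / ((p q.1).2 - (p q.2).2)))
  refine ⟨ε, ?_⟩
  intro u v huv
  simp only at huv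
  by_contra hne
  by_cases h2 : (p u).2 = (p v).2
  · apply hne
    apply hp
    ext
    · rw [h2] at huv; linarith
    · exact h2
  · apply hε
    rw [Finset.mem_image]
    refine ⟨(u, v), Finset.mem_univ _, ?_⟩
    have : (p u).2 - (p v).2 ≠ 0 := sub_ne_zero.2 h2
    field_simp
    linarith

/-- **Theorem.** Let `G` be a geometric graph on `n` points of the plane, no three on a line, with more
than `n k` edges (`k ≥ 1`).
(1) If `k⁴ ≤ (k+1) n²` (in particular if `n ≥ k^{3/2}`), some line avoiding the vertices meets at least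
`k²` edges.
(2) If `2k ∣ n`, some line avoiding the vertices meets at least `k² + k + 1` edges.
(3) For all `n` and `k` some line avoiding the vertices meets at least `(8/9) k²` edges. -/
theorem result_all (n k : ℕ) (hk : 1 ≤ k) (p : Fin n → ℝ × ℝ) (hp : Function.Injective p)
    (hgp : ∀ i j l : Fin n, i ≠ j → j ≠ l → i ≠ l → ¬ Collinear ℝ {p i, p j, p l})
    (G : SimpleGraph (Fin n)) (hE : n * k < G.edgeSet.ncard) :
    (k ^ 4 ≤ (k + 1) * n ^ 2 → SomeLineMeets G p (k ^ 2)) ∧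
    (2 * k ∣ n → SomeLineMeets G p (k ^ 2 + k + 1)) ∧
    (∃ m : ℕ, 8 * k ^ 2 ≤ 9 * m ∧ SomeLineMeets G p m) := by
  classical
  have hE' : n * k < G.edgeFinset.card := by
    rwa [← SimpleGraph.coe_edgeFinset, Set.ncard_coe_finset] at hE
  obtain ⟨ε, hε⟩ := generic p hp
  have hGP : GP (fun v => (p v).1 + ε * (p v).2) (fun v => (p v).2) := by
    intro i j l h1 h2 h3
    have := det_ne p hp hgp i j l h1 h2 h3
    simp only
    intro h
    apply this
    linarith
  have hcard : Fintype.card (Fin n) = n := Fintype.card_fin n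
  -- number of vertices
  have hn : 2 * k + 2 ≤ n := by
    have h1 := G.card_edgeFinset_le_card_choose_two
    rw [hcard, Nat.choose_two_right] at h1
    have h2 : n * (n - 1) / 2 * 2 ≤ n * (n - 1) := Nat.div_mul_le_self _ _
    have h3 : n * (2 * k) < n * (n - 1) := by nlinarith
    have h4 := Nat.lt_of_mul_lt_mul_left h3
    omega
  -- if no line meets `m + 1` edges, all cuts are at most `m`
  have hcut : ∀ m : ℕ, ¬ SomeLineMeets G p (m + 1) → ∀ α β γ : ℝ, ¬ (α = 0 ∧ β = 0) →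
      (∀ v, α * ((p v).1 + ε * (p v).2) + β * (p v).2 - γ ≠ 0) →
      cutS G (fun v => α * ((p v).1 + ε * (p v).2) + β * (p v).2 - γ) ≤ m := by
    intro m hm α β γ h0 hav
    have e1 : (fun v => α * ((p v).1 + ε * (p v).2) + β * (p v).2 - γ) =
        (fun v => α * (p v).1 + (α * ε + β) * (p v).2 - γ) := by
      ext v; ring
    rw [e1]
    by_contra hcon
    push Not at hcon
    apply hm
    refine ⟨α, α * ε + β, γ, ?_, ?_, ?_⟩
    · rintro ⟨h1, h2⟩
      apply h0
      refine ⟨h1, ?_⟩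
      rw [h1] at h2
      linarith
    · intro v hv
      simp only [line, Set.mem_ofPred_eq] at hv
      apply hav v
      rw [← hv]; ring
    · exact le_trans hcon (cut_le_met G p _ _ _)
  refine ⟨?_, ?_, ?_⟩
  · intro hkn
    by_contra hno
    obtain ⟨m, hm⟩ : ∃ m, k ^ 2 = m + 1 := ⟨k ^ 2 - 1, by
      have : 1 ≤ k ^ 2 := Nat.one_le_pow _ _ hk
      omega⟩
    rw [hm] at hno
    -- choice of `N`
    set σ : ℝ := Real.sqrt (k + 1) with hσ
    have hk1 : (1 : ℝ) ≤ k := by exact_mod_cast hk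
    have hn4 : (4 : ℝ) ≤ n := by
      have : 4 ≤ n := by omega
      exact_mod_cast this
    have hσ2 : σ ^ 2 = k + 1 := Real.sq_sqrt (by linarith)
    have hσ0 : 1.4 ≤ σ := by
      rw [hσ]; apply Real.le_sqrt_of_sq_le; norm_num; linarith
    have hden : 0 < 2 * (k : ℝ) + 1 - 2 * σ := by
      by_contra hcon
      push Not at hcon
      nlinarith
    have hden2 : 0 < 2 * (k : ℝ) + 1 + 2 * σ := by linarith
    set N := ⌈(n : ℝ) / (2 * k + 1 + 2 * σ)⌉₊ with hNdef
    have hL : (n : ℝ) / (2 * k + 1 + 2 * σ) ≤ N := Nat.le_ceil _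
    have hU : (N : ℝ) < n / (2 * k + 1 + 2 * σ) + 1 := Nat.ceil_lt_add_one (by positivity)
    have hN1 : 1 ≤ N := by
      rw [hNdef, Nat.one_le_ceil_iff]; positivity
    have hns : (k : ℝ) ^ 2 ≤ n * σ := by
      have h1 : ((k : ℝ) ^ 2) ^ 2 ≤ (n * σ) ^ 2 := by
        rw [mul_pow, hσ2]
        have : ((k ^ 4 : ℕ) : ℝ) ≤ (((k + 1) * n ^ 2 : ℕ) : ℝ) := by exact_mod_cast hkn
        push_cast at this
        nlinarith
      exact le_of_sq_le_sq h1 (by positivity)
    have hlen : (n : ℝ) / (2 * k + 1 + 2 * σ) + 1 ≤ n / (2 * k + 1 - 2 * σ) := by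
      rw [div_add_one hden2.ne', div_le_div_iff₀ hden2 hden]
      nlinarith
    have hU2 : (N : ℝ) ≤ n / (2 * k + 1 - 2 * σ) := by linarith
    rw [div_le_iff₀ hden2] at hL
    rw [le_div_iff₀ hden] at hU2
    have h2N : 2 * N ≤ n := by
      have h5 : (n : ℝ) / (2 * k + 1 + 2 * σ) ≤ n / 5.8 := by
        apply div_le_div_of_nonneg_left (by linarith) (by norm_num) (by linarith)
      have h6 : (2 : ℝ) * N < n + 1 := by
        have : (n : ℝ) / 5.8 = n * (1 / 5.8) := by ring
        rw [this] at h5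
        have : (2 : ℝ) * N < 2 * (n * (1 / 5.8) + 1) := by linarith
        refine lt_of_lt_of_le this ?_
        norm_num
        linarith
      have : 2 * N < n + 1 := by exact_mod_cast h6
      omega
    have hsq : ((n : ℝ) - N * (2 * k + 1)) ^ 2 ≤ 4 * N ^ 2 * (k + 1) := by
      have h7 : ((n : ℝ) - N * (2 * k + 1)) ^ 2 ≤ (2 * N * σ) ^ 2 := by
        apply sq_le_sq'
        · nlinarith
        · nlinarith
      calc _ ≤ (2 * N * σ) ^ 2 := h7
        _ = 4 * N ^ 2 * σ ^ 2 := by ring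
        _ = _ := by rw [hσ2]
    have hsqZ : ((n : ℤ) - N * (2 * k + 1)) ^ 2 ≤ 4 * N ^ 2 * (k + 1) := by exact_mod_cast hsq
    have hint := intBound G _ _ hε hGP m (hcut m hno) n k N hcard hN1 h2N hE'
    have hmZ : (m : ℤ) = k ^ 2 - 1 := by
      have : ((k ^ 2 : ℕ) : ℤ) = ((m + 1 : ℕ) : ℤ) := by rw [hm]
      push_cast at this
      linarith
    rw [hmZ] at hint
    nlinarith
  · rintro ⟨N, hN⟩
    by_contra hno
    have hN1 : 1 ≤ N := by
      rcases Nat.eq_zero_or_pos N with rfl | h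
      · simp at hN; omega
      · exact h
    have := exactBound G _ _ hε hGP (k ^ 2 + k) (hcut _ hno) k N hk
      (by rw [hcard, hN]; ring) hN1 (by
        have e : 2 * N * k * k = n * k := by rw [hN]; ring
        rw [e]; exact hE')
    omega
  · by_contra hno
    push Not at hno
    obtain ⟨m, hm1, hm2⟩ : ∃ m, 8 * k ^ 2 ≤ 9 * (m + 1) ∧ 9 * m < 8 * k ^ 2 := by
      refine ⟨(8 * k ^ 2 - 1) / 9, ?_, ?_⟩
      · omega
      · have : 1 ≤ k ^ 2 := Nat.one_le_pow _ _ hk
        omega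
    have hno' := hno (m + 1) hm1
    obtain ⟨N, hN1, h2N, hsq⟩ : ∃ N : ℕ, 1 ≤ N ∧ 2 * N ≤ n ∧
        9 * ((n : ℤ) - N * (2 * k + 1)) ^ 2 ≤ N ^ 2 * (2 * k + 1) ^ 2 := by
      set N0 := n / (2 * k + 1) with hN0
      set ρ := n % (2 * k + 1) with hρ
      have hdm : n = (2 * k + 1) * N0 + ρ := (Nat.div_add_mod n (2 * k + 1)).symm
      have hρlt : ρ < 2 * k + 1 := Nat.mod_lt _ (by omega)
      have hN01 : 1 ≤ N0 := by
        rw [hN0, Nat.one_le_div_iff (by omega)]; omega
      have hdmZ : (n : ℤ) = (2 * k + 1) * N0 + ρ := by exact_mod_cast hdm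
      have hkz : (1 : ℤ) ≤ k := by exact_mod_cast hk
      have hN0z : (1 : ℤ) ≤ N0 := by exact_mod_cast hN01
      have hρz : (ρ : ℤ) < 2 * k + 1 := by exact_mod_cast hρlt
      have hρ0 : (0 : ℤ) ≤ ρ := by positivity
      by_cases hc1 : 3 * ρ ≤ N0 * (2 * k + 1)
      · refine ⟨N0, hN01, ?_, ?_⟩
        · have h3 : 3 ≤ 2 * k + 1 := by omega
          have h6 : 3 * N0 ≤ (2 * k + 1) * N0 := Nat.mul_le_mul_right _ h3
          have h7 : 3 * N0 + ρ ≤ n := by rw [hdm]; exact Nat.add_le_add_right h6 _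
          omega
        · have hc1z : 3 * (ρ : ℤ) ≤ N0 * (2 * k + 1) := by exact_mod_cast hc1
          have e : (n : ℤ) - N0 * (2 * k + 1) = ρ := by rw [hdmZ]; ring
          rw [e]
          have h8 : (3 * (ρ : ℤ)) ^ 2 ≤ (N0 * (2 * k + 1)) ^ 2 :=
            pow_le_pow_left₀ (by positivity) hc1z 2
          linarith [h8, mul_pow (3 : ℤ) ρ 2, mul_pow (N0 : ℤ) (2 * k + 1) 2]
      · push Not at hc1
        have hc1z : (N0 : ℤ) * (2 * k + 1) < 3 * ρ := by exact_mod_cast hc1
        refine ⟨N0 + 1, by omega, ?_, ?_⟩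
        · have h3 : 3 ≤ 2 * k + 1 := by omega
          have h4 : 1 * 3 ≤ N0 * (2 * k + 1) := Nat.mul_le_mul hN01 h3
          have h5 : 2 ≤ ρ := by omega
          have h6 : 3 * N0 ≤ (2 * k + 1) * N0 := Nat.mul_le_mul_right _ h3
          have h7 : 3 * N0 + ρ ≤ n := by rw [hdm]; exact Nat.add_le_add_right h6 _
          omega
        · have e : (n : ℤ) - ((N0 + 1 : ℕ) : ℤ) * (2 * k + 1) = -((2 * k + 1) - ρ) := by
            rw [hdmZ]; push_cast; ring
          rw [e]
          push_cast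
          have h1 : 3 * ((2 * (k : ℤ) + 1) - ρ) ≤ (N0 + 1) * (2 * k + 1) := by nlinarith
          have h2 : 0 ≤ (2 * (k : ℤ) + 1) - ρ := by linarith
          have h8 : (3 * ((2 * (k : ℤ) + 1) - ρ)) ^ 2 ≤ ((N0 + 1) * (2 * k + 1)) ^ 2 :=
            pow_le_pow_left₀ (by linarith) h1 2
          linarith [h8, mul_pow (3 : ℤ) ((2 * (k : ℤ) + 1) - ρ) 2,
            mul_pow ((N0 : ℤ) + 1) (2 * k + 1) 2, neg_sq ((2 * (k : ℤ) + 1) - ρ)]
    have hint := intBound G _ _ hε hGP m (hcut m hno') n k N hcard hN1 h2N hE'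
    have hmZ : 9 * (m : ℤ) < 8 * k ^ 2 := by exact_mod_cast hm2
    have hNz : (1 : ℤ) ≤ N := by exact_mod_cast hN1
    have hN2 : (1 : ℤ) ≤ (N : ℤ) ^ 2 := by nlinarith
    have h8 : 4 * (N : ℤ) ^ 2 * (9 * m) ≤ 4 * N ^ 2 * (8 * k ^ 2) :=
      mul_le_mul_of_nonneg_left hmZ.le (by positivity)
    have hkz : (0 : ℤ) ≤ N ^ 2 * k := by positivity
    nlinarith

/-- Let `G` be a geometric graph on `n` points of the plane, no three of them collinear, with more
than `n k` edges (`k ≥ 1`).  If `2k ∣ n`, some line avoiding the vertices meets at least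
`k² + k + 1` edges. -/
theorem result (n k : ℕ) (hk : 1 ≤ k) (hdvd : 2 * k ∣ n) (p : Fin n → ℝ × ℝ)
    (hp : Function.Injective p)
    (hgp : ∀ i j l : Fin n, i ≠ j → j ≠ l → i ≠ l → ¬ Collinear ℝ {p i, p j, p l})
    (G : SimpleGraph (Fin n)) (hE : n * k < G.edgeSet.ncard) :
    SomeLineMeets G p (k ^ 2 + k + 1) :=
  (result_all n k hk p hp hgp G hE).2.1 hdvd

end Pool.Agent.Results.MP_62448f_co.LineThroughEdges
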